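import Pool.Agent.Lib.MP_f5a5c1_co.Main

set_option autoImplicit false

open Classical

namespace Pool.Agent.Lib.MP_f5a5c1_co

/-- A graph in which every nonempty set of vertices contains a vertex with at most `D` neighbours
in the set has at most `D` times as many edges as vertices. -/
theorem edges_le_of_degenerate {W : Type*} [Fintype W] (H : SimpleGraph W) (D : ℕ)
    (h : ∀ S : Finset W, S.Nonempty → ∃ x ∈ S, (S.filter (fun y => H.Adj x y)).card ≤ D) :
    H.edgeSet.ncard ≤ D * Fintype.card W := by
  have key : ∀ n : ℕ, ∀ S : Finset W, S.card = n →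
      (H.edgeFinset.filter (fun e => ∀ v ∈ e, v ∈ S)).card ≤ D * S.card := by
    intro n
    induction n with
    | zero =>
        intro S hS
        rw [Finset.card_eq_zero] at hS
        subst hS
        have : (H.edgeFinset.filter (fun e => ∀ v ∈ e, v ∈ (∅ : Finset W))) = ∅ := by
          rw [Finset.filter_eq_empty_iff]
          intro e _ hcon
          induction e with
          | h a c => exact absurd (hcon a (Sym2.mem_mk_left a c)) (by simp)
        rw [this]
        simp
    | succ n ih =>
        intro S hS
        have hne : S.Nonempty := by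
          rw [← Finset.card_pos, hS]; omega
        obtain ⟨x, hx, hdeg⟩ := h S hne
        have hcard : (S.erase x).card = n := by
          rw [Finset.card_erase_of_mem hx, hS]; rfl
        have h1 := ih (S.erase x) hcard
        have hsub : H.edgeFinset.filter (fun e => ∀ v ∈ e, v ∈ S) ⊆
            H.edgeFinset.filter (fun e => ∀ v ∈ e, v ∈ S.erase x) ∪
              (S.filter (fun y => H.Adj x y)).image (fun y => s(x, y)) := by
          intro e he
          rw [Finset.mem_filter] at he
          obtain ⟨he1, he2⟩ := he
          rw [Finset.mem_union]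
          by_cases hxe : x ∈ e
          · right
            obtain ⟨y, rfl⟩ := hxe
            rw [Finset.mem_image]
            refine ⟨y, ?_, rfl⟩
            rw [Finset.mem_filter]
            refine ⟨he2 y (Sym2.mem_mk_right x y), ?_⟩
            simpa using he1
          · left
            rw [Finset.mem_filter]
            refine ⟨he1, ?_⟩
            intro v hv
            rw [Finset.mem_erase]
            refine ⟨?_, he2 v hv⟩
            rintro rfl
            exact hxe hv
        calc (H.edgeFinset.filter (fun e => ∀ v ∈ e, v ∈ S)).card ≤ _ :=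
              Finset.card_le_card hsub
          _ ≤ _ := Finset.card_union_le _ _
          _ ≤ D * n + D := by
              refine Nat.add_le_add (hcard ▸ h1) ?_
              exact Finset.card_image_le.trans hdeg
          _ = D * S.card := by rw [hS]; ring
  have h2 := key _ (Finset.univ : Finset W) rfl
  have h3 : H.edgeFinset.filter (fun e => ∀ v ∈ e, v ∈ (Finset.univ : Finset W)) =
      H.edgeFinset := by
    apply Finset.filter_true_of_mem
    intro e _ v _
    exact Finset.mem_univ v
  rw [h3] at h2
  rw [← SimpleGraph.coe_edgeFinset, Set.ncard_coe_finset]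
  simpa using h2

theorem free_mono {V : Type*} {G : SimpleGraph V} {t t' : ℕ} (htt : t ≤ t')
    (hG : (completeBipartiteGraph (Fin t) (Fin t)).Free G) :
    (completeBipartiteGraph (Fin t') (Fin t')).Free G := by
  intro hcon
  apply hG
  rw [SimpleGraph.completeBipartiteGraph_isContained_iff] at hcon ⊢
  obtain ⟨A, C, hA, hC, hAC⟩ := hcon
  have hA' : t ≤ A.card := by rw [hA]; simpa using htt
  have hC' : t ≤ C.card := by rw [hC]; simpa using htt
  obtain ⟨A', hA1, hA2⟩ := Finset.exists_subset_card_eq hA'
  obtain ⟨C', hC1, hC2⟩ := Finset.exists_subset_card_eq hC'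
  refine ⟨A', C', by simpa using hA2, by simpa using hC2, ?_⟩
  intro a ha c hc
  exact hAC (hA1 ha) (hC1 hc)

theorem shallow_minor_degenerate {V W : Type*} [Fintype V] [Fintype W] {G : SimpleGraph V}
    {H : SimpleGraph W} {t b r : ℕ} (ht : 2 ≤ t)
    (hG : (completeBipartiteGraph (Fin t) (Fin t)).Free G) (hb : ReducedBandwidthLE G b)
    (hH : IsShallowMinor r H G) (S : Finset W) (hS : S.Nonempty) :
    ∃ x ∈ S, (S.filter (fun y => H.Adj x y)).card ≤
      (2 * (b * (3 * r + 1)) + 1) * ((2 * b + 2) * t) + 2 * t := by
  obtain ⟨B, hB1, hB2, hB3⟩ := hH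
  rcases le_or_gt t (Fintype.card V) with hV | hV
  · refine exists_low_degree hG hB1 hB2 hB3 hV S hS hb id (Inv.init G) ?_
    intro x _ hx
    obtain ⟨c, hc, -⟩ := hB1 x
    have := hx c hc
    unfold Large at this
    have e : fib (id : V → V) (id c) = {c} := by
      ext a
      simp [mem_fib]
    rw [e, Finset.card_singleton] at this
    omega
  · obtain ⟨x, hx⟩ := hS
    refine ⟨x, hx, ?_⟩
    have h1 : Fintype.card W ≤ Fintype.card V := by
      have hch : ∀ y : W, ∃ c, c ∈ B y := fun y => by
        obtain ⟨c, hc, -⟩ := hB1 y
        exact ⟨c, hc⟩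
      choose g hg using hch
      apply Fintype.card_le_of_injective g
      intro y y' e
      by_contra hne
      exact Set.disjoint_left.mp (hB2 y y' hne) (hg y) (e ▸ hg y')
    have h2 : (S.filter (fun y => H.Adj x y)).card ≤ Fintype.card W :=
      (Finset.card_filter_le _ _).trans (Finset.card_le_univ S)
    omega

/-- The number of edges of an `r`-shallow minor. -/
theorem edges_shallow_minor {V W : Type*} [Fintype V] [Fintype W] {G : SimpleGraph V}
    {H : SimpleGraph W} {t b r : ℕ}
    (hG : (completeBipartiteGraph (Fin t) (Fin t)).Free G) (hb : ReducedBandwidthLE G b)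
    (hH : IsShallowMinor r H G) :
    H.edgeSet.ncard ≤
      (max t 2 * ((6 * b + 1) * (2 * b + 2) + 2)) * (r + 1) * Fintype.card W := by
  have hG' := free_mono (le_max_left t 2) hG
  refine (edges_le_of_degenerate H _
    (shallow_minor_degenerate (le_max_right t 2) hG' hb hH)).trans ?_
  apply Nat.mul_le_mul_right
  generalize max t 2 = s
  have h1 : 2 * (b * (3 * r + 1)) + 1 ≤ (6 * b + 1) * (r + 1) := by nlinarith
  calc (2 * (b * (3 * r + 1)) + 1) * ((2 * b + 2) * s) + 2 * s
      ≤ ((6 * b + 1) * (r + 1)) * ((2 * b + 2) * s) + 2 * s * (r + 1) := by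
        refine Nat.add_le_add (Nat.mul_le_mul_right _ h1) ?_
        nlinarith
    _ = (s * ((6 * b + 1) * (2 * b + 2) + 2)) * (r + 1) := by ring

end Pool.Agent.Lib.MP_f5a5c1_co
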