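import Mathlib

/-!
# Reduction sequences, reduced bandwidth, shallow minors
-/

set_option autoImplicit false

open Classical

namespace Pool.Agent.Lib.MP_f5a5c1_co

variable {V : Type*}

/-- A trigraph: a finite set of current vertices, with black edges and red edges (only the
adjacencies between distinct current vertices matter). -/
structure Trigraph (V : Type*) where
  /-- the current vertices -/
  verts : Finset V
  /-- the black edges -/
  black : SimpleGraph V
  /-- the red edges -/
  red : SimpleGraph V

/-- The trigraph of a graph: all edges are black. -/
def Trigraph.ofGraph [Fintype V] (G : SimpleGraph V) : Trigraph V := ⟨Finset.univ, G, ⊥⟩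

/-- `y` is joined to neither by a black nor by a red edge. -/
def Trigraph.Absent (T : Trigraph V) (x y : V) : Prop := ¬ T.black.Adj x y ∧ ¬ T.red.Adj x y

/-- Contraction of the two vertices `u` and `v`. The new vertex `w` is again called `u` (and `v`
disappears). For every other vertex `x`, `w x` is black if `u x` and `v x` are both black, absent
if `u x` and `v x` are both absent, and red otherwise. All other adjacencies are unchanged. -/
noncomputable def Trigraph.contract (T : Trigraph V) (u v : V) : Trigraph V where
  verts := T.verts.erase v
  black :=
    { Adj := fun x y => x ≠ y ∧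
        (if x = u then T.black.Adj u y ∧ T.black.Adj v y
         else if y = u then T.black.Adj u x ∧ T.black.Adj v x
         else T.black.Adj x y)
      symm := by
        constructor
        intro x y h
        obtain ⟨h1, h2⟩ := h
        refine ⟨h1.symm, ?_⟩
        by_cases hx : x = u
        · have hy : y ≠ u := fun h => h1 (hx.trans h.symm)
          simpa [hx, hy] using h2
        · by_cases hy : y = u
          · simpa [hx, hy] using h2
          · simpa [hx, hy] using (show T.black.Adj x y by simpa [hx, hy] using h2).symm
      loopless := by
        constructor
        intro x h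
        exact h.1 rfl }
  red :=
    { Adj := fun x y => x ≠ y ∧
        (if x = u then ¬ (T.black.Adj u y ∧ T.black.Adj v y) ∧ ¬ (T.Absent u y ∧ T.Absent v y)
         else if y = u then ¬ (T.black.Adj u x ∧ T.black.Adj v x) ∧ ¬ (T.Absent u x ∧ T.Absent v x)
         else T.red.Adj x y)
      symm := by
        constructor
        intro x y h
        obtain ⟨h1, h2⟩ := h
        refine ⟨h1.symm, ?_⟩
        by_cases hx : x = u
        · have hy : y ≠ u := fun h => h1 (hx.trans h.symm)
          simpa [hx, hy] using h2
        · by_cases hy : y = u
          · simpa [hx, hy] using h2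
          · simpa [hx, hy] using (show T.red.Adj x y by simpa [hx, hy] using h2).symm
      loopless := by
        constructor
        intro x h
        exact h.1 rfl }

/-- The graph with vertex set `S` and adjacency `R` has bandwidth at most `b`: the vertices can be
labelled by distinct integers so that the labels of adjacent vertices differ by at most `b`. -/
def BandwidthLE (S : Finset V) (R : SimpleGraph V) (b : ℕ) : Prop :=
  ∃ f : V → ℤ, Set.InjOn f (S : Set V) ∧
    ∀ x ∈ S, ∀ y ∈ S, R.Adj x y → |f x - f y| ≤ (b : ℤ)

/-- The trigraph `T` can be reduced to a single vertex by a sequence of contractions such that all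
red graphs of the sequence (that of `T` included) have bandwidth at most `b`. -/
inductive Reducible (b : ℕ) : Trigraph V → Prop
  | stop (T : Trigraph V) : T.verts.card ≤ 1 → BandwidthLE T.verts T.red b → Reducible b T
  | step (T : Trigraph V) (u v : V) : u ∈ T.verts → v ∈ T.verts → u ≠ v →
      BandwidthLE T.verts T.red b → Reducible b (T.contract u v) → Reducible b T

/-- `G` has reduced bandwidth at most `b`. -/
def ReducedBandwidthLE [Fintype V] (G : SimpleGraph V) (b : ℕ) : Prop :=
  Reducible b (Trigraph.ofGraph G)

/-- `H` is an `r`-shallow minor of `G`: there are pairwise disjoint sets `B x` (`x` a vertex of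
`H`) of vertices of `G`, each inducing a connected subgraph of radius at most `r` (some `c ∈ B x`
is joined to every vertex of `B x` by a walk of length at most `r` inside `B x`), such that for
every edge `x y` of `H` there is an edge of `G` between `B x` and `B y`. -/
def IsShallowMinor {W : Type*} (r : ℕ) (H : SimpleGraph W) (G : SimpleGraph V) : Prop :=
  ∃ B : W → Set V,
    (∀ x, ∃ c ∈ B x, ∀ a ∈ B x, ∃ w : G.Walk c a, w.length ≤ r ∧ ∀ s ∈ w.support, s ∈ B x) ∧
    (∀ x y, x ≠ y → Disjoint (B x) (B y)) ∧
    (∀ x y, H.Adj x y → ∃ a ∈ B x, ∃ c ∈ B y, G.Adj a c)

end Pool.Agent.Lib.MP_f5a5c1_co
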