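import Pool.Agent.Lib.MP_f5a5c1_co.Defs

set_option autoImplicit false

open Classical

namespace Pool.Agent.Lib.MP_f5a5c1_co

variable {V : Type*} [Fintype V]

/-- The trigraph `T` is a quotient of `G` by the map `p`. -/
structure Inv (G : SimpleGraph V) (T : Trigraph V) (p : V → V) : Prop where
  mem : ∀ a, p a ∈ T.verts
  black : ∀ x y, x ∈ T.verts → y ∈ T.verts → T.black.Adj x y →
    ∀ a c, p a = x → p c = y → G.Adj a c
  cover : ∀ a c, G.Adj a c → p a ≠ p c → T.black.Adj (p a) (p c) ∨ T.red.Adj (p a) (p c)

theorem Inv.init (G : SimpleGraph V) : Inv G (Trigraph.ofGraph G) id where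
  mem := fun a => Finset.mem_univ a
  black := by
    intro x y _ _ h a c ha hc
    subst ha; subst hc
    exact h
  cover := fun a c h _ => Or.inl h

theorem Inv.contract {G : SimpleGraph V} {T : Trigraph V} {p : V → V} (h : Inv G T p) {u v : V}
    (hu : u ∈ T.verts) (huv : u ≠ v) :
    Inv G (T.contract u v) (fun a => if p a = v then u else p a) where
  mem := by
    intro a
    simp only [Trigraph.contract, Finset.mem_erase]
    by_cases hv : p a = v
    · simp [hv, huv, hu]
    · simp [hv, h.mem a]
  black := by
    intro x y hx hy hxy a c ha hc
    simp only [Trigraph.contract, Finset.mem_erase] at hx hy hxy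
    obtain ⟨hne, hxy⟩ := hxy
    by_cases hxu : x = u
    · have hyu : y ≠ u := fun e => hne (hxu.trans e.symm)
      simp only [hxu, if_true] at hxy
      have hc' : p c = y := by
        by_cases hv : p c = v
        · simp only [hv, if_true] at hc
          exact absurd hc.symm hyu
        · simpa [hv] using hc
      by_cases hv : p a = v
      · have hvm : v ∈ T.verts := hv ▸ h.mem a
        exact h.black v y hvm hy.2 hxy.2 a c hv hc'
      · have : p a = u := by simpa [hv, hxu] using ha
        exact h.black u y hu hy.2 hxy.1 a c this hc'
    · have ha' : p a = x := by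
        by_cases hv : p a = v
        · simp only [hv, if_true] at ha
          exact absurd ha.symm hxu
        · simpa [hv] using ha
      by_cases hyu : y = u
      · simp only [hxu, hyu, if_true, if_false] at hxy
        by_cases hv : p c = v
        · have hvm : v ∈ T.verts := hv ▸ h.mem c
          exact (h.black v x hvm hx.2 hxy.2 c a hv ha').symm
        · have : p c = u := by simpa [hv, hyu] using hc
          exact (h.black u x hu hx.2 hxy.1 c a this ha').symm
      · simp only [hxu, hyu, if_false] at hxy
        have hc' : p c = y := by
          by_cases hv : p c = v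
          · simp only [hv, if_true] at hc
            exact absurd hc.symm hyu
          · simpa [hv] using hc
        exact h.black x y hx.2 hy.2 hxy a c ha' hc'
  cover := by
    -- a general statement for the merged vertex
    have key : ∀ a y, (p a = u ∨ p a = v) → y ≠ u →
        (T.black.Adj (p a) y ∨ T.red.Adj (p a) y) →
        (T.contract u v).black.Adj u y ∨ (T.contract u v).red.Adj u y := by
      intro a y ha hy hay
      by_cases hb : T.black.Adj u y ∧ T.black.Adj v y
      · left
        simp only [Trigraph.contract]
        exact ⟨hy.symm, by simpa using hb⟩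
      · right
        simp only [Trigraph.contract]
        refine ⟨hy.symm, ?_⟩
        simp only [if_true]
        refine ⟨hb, ?_⟩
        rintro ⟨h1, h2⟩
        rcases ha with ha | ha
        · rw [ha] at hay
          exact hay.elim h1.1 h1.2
        · rw [ha] at hay
          exact hay.elim h2.1 h2.2
    intro a c hac hne
    by_cases ha : p a = u ∨ p a = v
    · have ea : (if p a = v then u else p a) = u := by
        rcases ha with ha | ha
        · simp [ha]
        · simp [ha]
      rw [ea] at hne ⊢
      have hc : ¬ (p c = u ∨ p c = v) := by
        rintro (hc | hc)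
        · apply hne; simp [hc]
        · apply hne; simp [hc]
      push Not at hc
      have ec : (if p c = v then u else p c) = p c := by simp [hc.2]
      rw [ec]
      refine key a (p c) ha hc.1 (h.cover a c hac ?_)
      intro e
      rcases ha with ha | ha
      · exact hc.1 (e.symm.trans ha)
      · exact hc.2 (e.symm.trans ha)
    · push Not at ha
      have ea : (if p a = v then u else p a) = p a := by simp [ha.2]
      rw [ea] at hne ⊢
      by_cases hc : p c = u ∨ p c = v
      · have ec : (if p c = v then u else p c) = u := by
          rcases hc with hc | hc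
          · simp [hc]
          · simp [hc]
        rw [ec]
        have := key c (p a) hc ha.1 (h.cover c a hac.symm (by
          intro e
          rcases hc with hc | hc
          · exact ha.1 (e.symm.trans hc)
          · exact ha.2 (e.symm.trans hc)))
        exact this.imp (fun h => h.symm) (fun h => h.symm)
      · push Not at hc
        have ec : (if p c = v then u else p c) = p c := by simp [hc.2]
        rw [ec] at hne ⊢
        rcases h.cover a c hac hne with h1 | h1
        · left
          simp only [Trigraph.contract]
          refine ⟨hne, ?_⟩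
          simpa [ha.1, hc.1] using h1
        · right
          simp only [Trigraph.contract]
          refine ⟨hne, ?_⟩
          simpa [ha.1, hc.1] using h1

/-- the part of the vertex `x` -/
noncomputable def fib (p : V → V) (x : V) : Finset V := Finset.univ.filter (fun a => p a = x)

theorem mem_fib {p : V → V} {x a : V} : a ∈ fib p x ↔ p a = x := by simp [fib]

/-- the part of `x` is large -/
def Large (t : ℕ) (p : V → V) (x : V) : Prop := t ≤ (fib p x).card

/-- vertices in small parts adjacent to `q` -/
noncomputable def sig (T : Trigraph V) (t : ℕ) (p : V → V) (q : V) : Finset V :=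
  Finset.univ.filter (fun c => ¬ Large t p (p c) ∧ p c ≠ q ∧
    (T.black.Adj q (p c) ∨ T.red.Adj q (p c)))

/-- `q` is joined to `P` by a red walk of length at most `k` through current vertices. -/
inductive Near (T : Trigraph V) (P : V) : ℕ → V → Prop
  | refl (k : ℕ) : Near T P k P
  | stay (k : ℕ) (q : V) : Near T P k q → Near T P (k + 1) q
  | step (k : ℕ) (q q' : V) : Near T P k q → q ∈ T.verts → q' ∈ T.verts → T.red.Adj q q' →
      Near T P (k + 1) q'

theorem Near.mono {T : Trigraph V} {P q : V} {k k' : ℕ} (h : Near T P k q) (hk : k ≤ k') :
    Near T P k' q := by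
  obtain ⟨d, rfl⟩ := Nat.exists_eq_add_of_le hk
  clear hk
  induction d with
  | zero => exact h
  | succ d ih => exact Near.stay _ _ ih

theorem near_mem {T : Trigraph V} {P : V} (hP : P ∈ T.verts) {k : ℕ} {q : V}
    (h : Near T P k q) : q ∈ T.verts := by
  induction h with
  | refl k => exact hP
  | stay k q _ ih => exact ih
  | step k q q' _ _ h2 _ _ => exact h2

theorem near_label {T : Trigraph V} {P : V} {b : ℕ} {f : V → ℤ}
    (hf : ∀ x ∈ T.verts, ∀ y ∈ T.verts, T.red.Adj x y → |f x - f y| ≤ (b : ℤ))
    {k : ℕ} {q : V} (h : Near T P k q) : |f P - f q| ≤ (b : ℤ) * k := by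
  induction h with
  | refl k => simp; positivity
  | stay k q _ ih => push_cast; nlinarith
  | step k q q' _ h1 h2 h3 ih =>
      have := hf q h1 q' h2 h3
      push_cast
      rw [abs_le] at *
      constructor <;> nlinarith

theorem near_card {T : Trigraph V} {P : V} (hP : P ∈ T.verts) {b : ℕ}
    (hb : BandwidthLE T.verts T.red b) (k : ℕ) :
    (Finset.univ.filter (fun q => Near T P k q)).card ≤ 2 * (b * k) + 1 := by
  obtain ⟨f, hinj, hf⟩ := hb
  have h1 : (Finset.univ.filter (fun q => Near T P k q)).card ≤
      (Finset.Icc (f P - b * k) (f P + b * k)).card := by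
    apply Finset.card_le_card_of_injOn f
    · intro q hq
      simp only [Finset.coe_filter, Finset.mem_univ, true_and, Set.mem_setOf_eq] at hq
      have := near_label hf hq
      rw [abs_le] at this
      simp only [Finset.coe_Icc, Set.mem_Icc]
      constructor <;> linarith [this.1, this.2]
    · intro q hq q' hq' e
      simp only [Finset.coe_filter, Finset.mem_univ, true_and, Set.mem_setOf_eq] at hq hq'
      exact hinj (near_mem hP hq) (near_mem hP hq') e
  refine h1.trans ?_
  rw [Int.card_Icc]
  have : f P + b * k + 1 - (f P - b * k) = ((2 * (b * k) + 1 : ℕ) : ℤ) := by push_cast; ring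
  rw [this]
  simp

section Free

variable {G : SimpleGraph V} {t : ℕ}

theorem free_sets (hG : (completeBipartiteGraph (Fin t) (Fin t)).Free G) (A C : Finset V)
    (hA : t ≤ A.card) (hC : t ≤ C.card) (h : ∀ a ∈ A, ∀ c ∈ C, G.Adj a c) : False := by
  obtain ⟨A', hA', hA2⟩ := Finset.exists_subset_card_eq hA
  obtain ⟨C', hC', hC2⟩ := Finset.exists_subset_card_eq hC
  apply hG
  rw [SimpleGraph.completeBipartiteGraph_isContained_iff]
  refine ⟨A', C', by simpa using hA2, by simpa using hC2, ?_⟩
  intro a ha c hc
  exact h a (hA' ha) c (hC' hc)

theorem black_small (hG : (completeBipartiteGraph (Fin t) (Fin t)).Free G) {T : Trigraph V}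
    {p : V → V} (hI : Inv G T p) {q : V} (hq : q ∈ T.verts) (hL : Large t p q) :
    (Finset.univ.filter (fun c => T.black.Adj q (p c))).card ≤ t := by
  by_contra hcon
  push Not at hcon
  refine free_sets hG (fib p q) _ hL hcon.le ?_
  intro a ha c hc
  rw [mem_fib] at ha
  simp only [Finset.mem_filter, Finset.mem_univ, true_and] at hc
  exact hI.black q (p c) hq (hI.mem c) hc a c ha rfl

theorem not_black_large (hG : (completeBipartiteGraph (Fin t) (Fin t)).Free G) {T : Trigraph V}
    {p : V → V} (hI : Inv G T p) {q q' : V} (hq : q ∈ T.verts) (hL : Large t p q)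
    (hq' : q' ∈ T.verts) (hL' : Large t p q') : ¬ T.black.Adj q q' := by
  intro hb
  refine free_sets hG (fib p q) (fib p q') hL hL' ?_
  intro a ha c hc
  rw [mem_fib] at ha hc
  exact hI.black q q' hq hq' hb a c ha hc

theorem sig_card (hG : (completeBipartiteGraph (Fin t) (Fin t)).Free G) {T : Trigraph V}
    {p : V → V} (hI : Inv G T p) {b : ℕ} (hb : BandwidthLE T.verts T.red b) {q : V}
    (hq : q ∈ T.verts) (hL : Large t p q) : (sig T t p q).card ≤ (2 * b + 2) * t := by
  obtain ⟨f, hinj, hf⟩ := hb
  set N : Finset V := Finset.univ.filter
    (fun s => s ∈ T.verts ∧ T.red.Adj q s ∧ ¬ Large t p s) with hN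
  have hNcard : N.card ≤ 2 * b + 1 := by
    have h1 : N.card ≤ (Finset.Icc (f q - b) (f q + b)).card := by
      apply Finset.card_le_card_of_injOn f
      · intro s hs
        simp only [hN, Finset.coe_filter, Finset.mem_univ, true_and, Set.mem_setOf_eq] at hs
        have := hf q hq s hs.1 hs.2.1
        rw [abs_le] at this
        simp only [Finset.coe_Icc, Set.mem_Icc]
        constructor <;> linarith [this.1, this.2]
      · intro s hs s' hs' e
        simp only [hN, Finset.coe_filter, Finset.mem_univ, true_and, Set.mem_setOf_eq] at hs hs'
        exact hinj hs.1 hs'.1 e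
    refine h1.trans ?_
    rw [Int.card_Icc]
    have : f q + b + 1 - (f q - b) = ((2 * b + 1 : ℕ) : ℤ) := by push_cast; ring
    rw [this]
    simp
  have hsub : sig T t p q ⊆
      Finset.univ.filter (fun c => T.black.Adj q (p c)) ∪ N.biUnion (fib p) := by
    intro c hc
    simp only [sig, Finset.mem_filter, Finset.mem_univ, true_and] at hc
    obtain ⟨h1, h2, h3⟩ := hc
    rw [Finset.mem_union]
    rcases h3 with h3 | h3
    · left; simpa using h3
    · right
      rw [Finset.mem_biUnion]
      refine ⟨p c, ?_, by rw [mem_fib]⟩
      simp only [hN, Finset.mem_filter, Finset.mem_univ, true_and]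
      exact ⟨hI.mem c, h3, h1⟩
  have h2 : (N.biUnion (fib p)).card ≤ N.card * t := by
    apply Finset.card_biUnion_le_card_mul
    intro s hs
    simp only [hN, Finset.mem_filter, Finset.mem_univ, true_and] at hs
    have := hs.2.2
    unfold Large at this
    omega
  calc (sig T t p q).card ≤ _ := Finset.card_le_card hsub
    _ ≤ _ := Finset.card_union_le _ _
    _ ≤ t + (2 * b + 1) * t :=
        Nat.add_le_add (black_small hG hI hq hL) (h2.trans (Nat.mul_le_mul_right t hNcard))
    _ = (2 * b + 2) * t := by ring

/-- Following a walk of `G` starting in a large part. -/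
theorem track (hG : (completeBipartiteGraph (Fin t) (Fin t)).Free G) {T : Trigraph V}
    {p : V → V} (hI : Inv G T p) (P : V) : ∀ {a z : V} (w : G.Walk a z) (k : ℕ),
    Large t p (p a) → Near T P k (p a) →
    ((∀ s ∈ w.support, Large t p (p s)) ∧ Near T P (k + w.length) (p z)) ∨
    (∃ s ∈ w.support, ∃ q, Large t p q ∧ Near T P (k + w.length) q ∧ q ∈ T.verts ∧
      s ∈ sig T t p q) := by
  intro a z w
  induction w with
  | nil =>
      intro k h1 h2
      left
      refine ⟨?_, by simpa using h2⟩
      intro s hs
      simp only [SimpleGraph.Walk.support_nil, List.mem_singleton] at hs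
      rw [hs]; exact h1
  | @cons a c z hac w ih =>
      intro k h1 h2
      have hlen : k + (SimpleGraph.Walk.cons hac w).length = k + 1 + w.length := by
        simp [SimpleGraph.Walk.length_cons]; ring
      have hstep : (Large t p (p c) ∧ Near T P (k + 1) (p c)) ∨
          (¬ Large t p (p c) ∧ c ∈ sig T t p (p a)) := by
        by_cases he : p a = p c
        · left
          rw [← he]
          exact ⟨h1, Near.stay _ _ h2⟩
        · by_cases hL : Large t p (p c)
          · left
            refine ⟨hL, ?_⟩
            rcases hI.cover a c hac he with hb | hr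
            · exact absurd hb (not_black_large hG hI (hI.mem a) h1 (hI.mem c) hL)
            · exact Near.step _ _ _ h2 (hI.mem a) (hI.mem c) hr
          · right
            refine ⟨hL, ?_⟩
            simp only [sig, Finset.mem_filter, Finset.mem_univ, true_and]
            exact ⟨hL, fun e => he e.symm, hI.cover a c hac he⟩
      rw [hlen]
      rcases hstep with ⟨g1, g2⟩ | ⟨g1, g2⟩
      · rcases ih (k + 1) g1 g2 with ⟨i1, i2⟩ | ⟨s, hs, q, i1, i2, i3, i4⟩
        · left
          refine ⟨?_, i2⟩
          intro s hs
          rw [SimpleGraph.Walk.support_cons, List.mem_cons] at hs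
          rcases hs with rfl | hs
          · exact h1
          · exact i1 s hs
        · right
          exact ⟨s, by rw [SimpleGraph.Walk.support_cons]; exact List.mem_cons_of_mem _ hs,
            q, i1, i2, i3, i4⟩
      · right
        refine ⟨c, ?_, p a, h1, h2.mono (by omega), hI.mem a, g2⟩
        rw [SimpleGraph.Walk.support_cons]
        exact List.mem_cons_of_mem _ (SimpleGraph.Walk.start_mem_support w)

end Free

/-- all parts met by `A` are large -/
def Processed (t : ℕ) (p : V → V) (A : Set V) : Prop := ∀ a ∈ A, Large t p (p a)

section Minor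

variable {W : Type*} {G : SimpleGraph V} {t : ℕ} {H : SimpleGraph W} {B : W → Set V} {r : ℕ}

/-- Few neighbours of a processed branch set are not processed. -/
theorem unprocessed_card (hG : (completeBipartiteGraph (Fin t) (Fin t)).Free G)
    (hB1 : ∀ x, ∃ c ∈ B x, ∀ a ∈ B x, ∃ w : G.Walk c a, w.length ≤ r ∧ ∀ s ∈ w.support, s ∈ B x)
    (hB2 : ∀ x y, x ≠ y → Disjoint (B x) (B y))
    (hB3 : ∀ x y, H.Adj x y → ∃ a ∈ B x, ∃ c ∈ B y, G.Adj a c)
    {T : Trigraph V} {p : V → V} (hI : Inv G T p) {b : ℕ} (hb : BandwidthLE T.verts T.red b)
    {x : W} (hx : Processed t p (B x)) (S : Finset W)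
    (hS : ∀ y ∈ S, H.Adj x y ∧ ¬ Processed t p (B y)) :
    S.card ≤ (2 * (b * (3 * r + 1)) + 1) * ((2 * b + 2) * t) := by
  obtain ⟨cx, hcx, hcx'⟩ := hB1 x
  set P := p cx with hP
  have hPm : P ∈ T.verts := hI.mem cx
  set Z : Finset V := (Finset.univ.filter (fun q => Near T P (3 * r + 1) q)).filter
    (fun q => Large t p q) |>.biUnion (sig T t p) with hZ
  have hZcard : Z.card ≤ (2 * (b * (3 * r + 1)) + 1) * ((2 * b + 2) * t) := by
    refine (Finset.card_biUnion_le_card_mul _ _ ((2 * b + 2) * t) ?_).trans ?_
    · intro q hq
      simp only [Finset.mem_filter, Finset.mem_univ, true_and] at hq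
      exact sig_card hG hI hb (near_mem hPm hq.1) hq.2
    · apply Nat.mul_le_mul_right
      exact (Finset.card_filter_le _ _).trans (near_card hPm hb _)
  have hch : ∀ y ∈ S, ∃ s ∈ B y, s ∈ Z := by
    intro y hy
    obtain ⟨hxy, hny⟩ := hS y hy
    obtain ⟨a, ha, c, hc, hac⟩ := hB3 x y hxy
    obtain ⟨w0, hw0, hw0'⟩ := hcx' a ha
    have h0 : Near T P r (p a) := by
      rcases track hG hI P w0 0 (hx cx hcx) (Near.refl 0) with ⟨_, i2⟩ | ⟨s, hs, q, _, _, _, i4⟩
      · exact i2.mono (by omega)
      · exfalso
        simp only [sig, Finset.mem_filter, Finset.mem_univ, true_and] at i4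
        exact i4.1 (hx s (hw0' s hs))
    obtain ⟨cy, hcy, hcy'⟩ := hB1 y
    unfold Processed at hny
    push Not at hny
    obtain ⟨z, hz, hzL⟩ := hny
    obtain ⟨w1, hw1, hw1'⟩ := hcy' c hc
    obtain ⟨w2, hw2, hw2'⟩ := hcy' z hz
    set w3 : G.Walk c z := w1.reverse.append w2 with hw3
    have hw3len : w3.length ≤ 2 * r := by
      rw [hw3, SimpleGraph.Walk.length_append, SimpleGraph.Walk.length_reverse]
      omega
    have hw3s : ∀ s ∈ w3.support, s ∈ B y := by
      intro s hs
      rw [hw3, SimpleGraph.Walk.mem_support_append_iff, SimpleGraph.Walk.support_reverse,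
        List.mem_reverse] at hs
      rcases hs with hs | hs
      · exact hw1' s hs
      · exact hw2' s hs
    rcases track hG hI P (SimpleGraph.Walk.cons hac w3) r (hx a ha) h0 with
      ⟨i1, _⟩ | ⟨s, hs, q, i1, i2, i3, i4⟩
    · exfalso
      apply hzL
      apply i1
      rw [SimpleGraph.Walk.support_cons]
      exact List.mem_cons_of_mem _ (SimpleGraph.Walk.end_mem_support w3)
    · rw [SimpleGraph.Walk.support_cons, List.mem_cons] at hs
      rcases hs with rfl | hs
      · exfalso
        simp only [sig, Finset.mem_filter, Finset.mem_univ, true_and] at i4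
        exact i4.1 (hx s ha)
      · refine ⟨s, hw3s s hs, ?_⟩
        rw [hZ, Finset.mem_biUnion]
        refine ⟨q, ?_, i4⟩
        simp only [Finset.mem_filter, Finset.mem_univ, true_and]
        refine ⟨i2.mono ?_, i1⟩
        rw [SimpleGraph.Walk.length_cons]
        omega
  haveI : Nonempty V := ⟨cx⟩
  choose! g hg1 hg2 using hch
  refine le_trans ?_ hZcard
  apply Finset.card_le_card_of_injOn g
  · intro y hy
    exact hg2 y hy
  · intro y hy y' hy' e
    by_contra hne
    exact Set.disjoint_left.mp (hB2 y y' hne) (hg1 y hy) (e ▸ hg1 y' hy')

/-- The main degree bound. -/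
theorem exists_low_degree (hG : (completeBipartiteGraph (Fin t) (Fin t)).Free G)
    (hB1 : ∀ x, ∃ c ∈ B x, ∀ a ∈ B x, ∃ w : G.Walk c a, w.length ≤ r ∧ ∀ s ∈ w.support, s ∈ B x)
    (hB2 : ∀ x y, x ≠ y → Disjoint (B x) (B y))
    (hB3 : ∀ x y, H.Adj x y → ∃ a ∈ B x, ∃ c ∈ B y, G.Adj a c) {b : ℕ}
    (hV : t ≤ Fintype.card V) (S : Finset W) (hS : S.Nonempty) {T : Trigraph V}
    (hT : Reducible b T) : ∀ p : V → V, Inv G T p → (∀ x ∈ S, ¬ Processed t p (B x)) →
    ∃ x ∈ S, (S.filter (fun y => H.Adj x y)).card ≤
      (2 * (b * (3 * r + 1)) + 1) * ((2 * b + 2) * t) + 2 * t := by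
  induction hT with
  | stop T hcard hbw =>
      intro p hI hno
      exfalso
      obtain ⟨x, hx⟩ := hS
      apply hno x hx
      intro a _
      unfold Large
      have : fib p (p a) = Finset.univ := by
        ext c
        simp only [mem_fib, Finset.mem_univ, iff_true]
        exact Finset.card_le_one.mp hcard _ (hI.mem c) _ (hI.mem a)
      rw [this]
      simpa using hV
  | step T u v hu hv huv hbw hred ih =>
      intro p hI hno
      set p' : V → V := fun a => if p a = v then u else p a with hp'
      have hI' : Inv G (T.contract u v) p' := hI.contract hu huv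
      by_cases hex : ∃ x ∈ S, Processed t p' (B x)
      · obtain ⟨x, hxS, hx⟩ := hex
        have hbw' : BandwidthLE (T.contract u v).verts (T.contract u v).red b := by
          cases hred with
          | stop _ _ h => exact h
          | step _ _ _ _ _ _ h _ => exact h
        refine ⟨x, hxS, ?_⟩
        have h1 := unprocessed_card hG hB1 hB2 hB3 hI' hbw' hx
          ((S.filter (fun y => H.Adj x y)).filter (fun y => ¬ Processed t p' (B y))) (by
            intro y hy
            simp only [Finset.mem_filter] at hy
            exact ⟨hy.1.2, hy.2⟩)
        have h2 : ((S.filter (fun y => H.Adj x y)).filter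
            (fun y => Processed t p' (B y))).card ≤ 2 * t := by
          set Y := (S.filter (fun y => H.Adj x y)).filter (fun y => Processed t p' (B y)) with hY
          set U : Finset V := (if Large t p u then ∅ else fib p u) ∪
            (if Large t p v then ∅ else fib p v) with hU
          have hUc : U.card ≤ 2 * t := by
            refine (Finset.card_union_le _ _).trans ?_
            have e : ∀ q, (if Large t p q then (∅ : Finset V) else fib p q).card ≤ t := by
              intro q
              split_ifs with hq
              · simp
              · unfold Large at hq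
                omega
            have := e u
            have := e v
            omega
          have hch : ∀ y ∈ Y, ∃ s ∈ B y, s ∈ U := by
            intro y hy
            simp only [hY, Finset.mem_filter] at hy
            have hny := hno y hy.1.1
            unfold Processed at hny
            push Not at hny
            obtain ⟨a, ha, haL⟩ := hny
            refine ⟨a, ha, ?_⟩
            have haL' := hy.2 a ha
            rw [hU, Finset.mem_union]
            by_cases h1 : p a = u
            · left
              rw [h1] at haL
              rw [if_neg haL, mem_fib]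
              exact h1
            · by_cases h2 : p a = v
              · right
                rw [h2] at haL
                rw [if_neg haL, mem_fib]
                exact h2
              · exfalso
                apply haL
                have e1 : p' a = p a := by simp [hp', h2]
                have e2 : fib p' (p a) = fib p (p a) := by
                  ext c
                  simp only [mem_fib, hp']
                  by_cases h3 : p c = v
                  · simp only [h3, if_true]
                    constructor
                    · intro h; exact absurd h.symm h1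
                    · intro h; exact absurd h.symm h2
                  · simp [h3]
                rw [e1] at haL'
                unfold Large at haL' ⊢
                rwa [e2] at haL'
          haveI : Nonempty V := ⟨u⟩
          choose! g hg1 hg2 using hch
          refine le_trans ?_ hUc
          apply Finset.card_le_card_of_injOn g
          · intro y hy
            exact hg2 y hy
          · intro y hy y' hy' e
            by_contra hne
            exact Set.disjoint_left.mp (hB2 y y' hne) (hg1 y hy) (e ▸ hg1 y' hy')
        have h3 := Finset.card_filter_add_card_filter_not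
          (s := S.filter (fun y => H.Adj x y)) (fun y => Processed t p' (B y))
        omega
      · push Not at hex
        exact ih p' hI' hex

end Minor

end Pool.Agent.Lib.MP_f5a5c1_co
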